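import Mathlib
import Pool.Agent.H997LT.Base6

set_option autoImplicit false

namespace Pool.Agent.Results.MP_d56194_co.SixRows

open Pool.Agent.H997LT

theorem chk_all : ∀ e ∈ b5 ++ b6, chk e.1 e.2.1 e.2.2.1 e.2.2.2 = true := by
  intro e he
  simp only [List.mem_append] at he
  rcases he with he | he
  · exact List.all_eq_true.1 chk_b5 e he
  · exact List.all_eq_true.1 chk_b6 e he

theorem cov_all (r : ℕ) (h1 : 1 ≤ r) (h7 : r ≤ 6) : ∀ l ∈ shapes r (2 * r - 3),
    easy l = true ∨ ∃ e ∈ b5 ++ b6, e.1 = l := by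
  intro l hl
  have mem : r = 1 ∨ r = 2 ∨ r = 3 ∨ r = 4 ∨ r = 5 ∨ r = 6 := by omega
  rcases mem with rfl | rfl | rfl | rfl | rfl | rfl
  · rcases cover_spec _ _ cov1 l hl with h | ⟨b, hb, h⟩
    · exact Or.inl h
    · simp at hb
  · rcases cover_spec _ _ cov2 l hl with h | ⟨b, hb, h⟩
    · exact Or.inl h
    · simp at hb
  · rcases cover_spec _ _ cov3 l hl with h | ⟨b, hb, h⟩
    · exact Or.inl h
    · simp at hb
  · rcases cover_spec _ _ cov4 l hl with h | ⟨b, hb, h⟩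
    · exact Or.inl h
    · simp at hb
  · rcases cover_spec _ _ cov5 l hl with h | ⟨b, hb, h⟩
    · exact Or.inl h
    · exact Or.inr ⟨b, List.mem_append_left _ hb, h⟩
  · rcases cover_spec _ _ cov6 l hl with h | ⟨b, hb, h⟩
    · exact Or.inl h
    · exact Or.inr ⟨b, List.mem_append_right _ hb, h⟩

/-- Every Young diagram with at most six rows or at most six columns is CDS-colorable. -/
theorem result :
    ∀ μ : YoungDiagram, (μ.colLen 0 ≤ 6 ∨ μ.rowLen 0 ≤ 6) →
      ∃ c : ℕ × ℕ → ℕ,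
      (∀ a ∈ μ.cells, ∀ b ∈ μ.cells, a ≠ b → (a.1 = b.1 ∨ a.2 = b.2) → c a ≠ c b) ∧
      ∀ k : ℕ, 0 < k →
        (∃ f : Fin k → Finset (ℕ × ℕ),
            (∀ i, f i ⊆ μ.cells ∧
              ∀ a ∈ f i, ∀ b ∈ f i, a ≠ b → a.1 ≠ b.1 ∧ a.2 ≠ b.2) ∧
            (Finset.univ.biUnion f).card = (μ.cells.filter (fun x => c x < k)).card) ∧
        (∀ f : Fin k → Finset (ℕ × ℕ),
            (∀ i, f i ⊆ μ.cells ∧
              ∀ a ∈ f i, ∀ b ∈ f i, a ≠ b → a.1 ≠ b.1 ∧ a.2 ≠ b.2) →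
            (Finset.univ.biUnion f).card ≤ (μ.cells.filter (fun x => c x < k)).card) := by
  intro μ h
  have key : ∃ c, Good μ.cells c := by
    rcases h with h | h
    · exact few_rows 6 _ chk_all cov_all _ μ le_rfl h
    · refine good_transpose μ (few_rows 6 _ chk_all cov_all _ μ.transpose le_rfl ?_)
      rw [YoungDiagram.colLen_transpose]
      exact h
  obtain ⟨c, hc⟩ := key
  exact ⟨c, good_cds _ c hc⟩

end Pool.Agent.Results.MP_d56194_co.SixRows
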