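import Mathlib
import Pool.Agent.H997LT.Three

set_option autoImplicit false

namespace Pool.Agent.Results.MP_d56194_co.ThreeRowLengths

open Pool.Agent.H997LT

/-- Every Young diagram whose nonzero row lengths take at most three values is CDS-colorable. -/
theorem result :
    ∀ μ : YoungDiagram, (∃ l₁ l₂ l₃ : ℕ, ∀ i,
        μ.rowLen i = 0 ∨ μ.rowLen i = l₁ ∨ μ.rowLen i = l₂ ∨ μ.rowLen i = l₃) →
      ∃ c : ℕ × ℕ → ℕ,
      (∀ a ∈ μ.cells, ∀ b ∈ μ.cells, a ≠ b → (a.1 = b.1 ∨ a.2 = b.2) → c a ≠ c b) ∧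
      ∀ k : ℕ, 0 < k →
        (∃ f : Fin k → Finset (ℕ × ℕ),
            (∀ i, f i ⊆ μ.cells ∧
              ∀ a ∈ f i, ∀ b ∈ f i, a ≠ b → a.1 ≠ b.1 ∧ a.2 ≠ b.2) ∧
            (Finset.univ.biUnion f).card = (μ.cells.filter (fun x => c x < k)).card) ∧
        (∀ f : Fin k → Finset (ℕ × ℕ),
            (∀ i, f i ⊆ μ.cells ∧
              ∀ a ∈ f i, ∀ b ∈ f i, a ≠ b → a.1 ≠ b.1 ∧ a.2 ≠ b.2) →
            (Finset.univ.biUnion f).card ≤ (μ.cells.filter (fun x => c x < k)).card) := by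
  rintro μ ⟨l₁, l₂, l₃, h⟩
  have key : ∃ p1 p2 p3 c1 c2 c3, μ.cells = hook3 p1 p2 p3 c1 c2 c3 := by
    rcases le_total l₁ l₂ with h12 | h12 <;> rcases le_total l₂ l₃ with h23 | h23 <;>
      rcases le_total l₁ l₃ with h13 | h13
    · exact cells_eq_hook3 μ l₃ l₂ l₁ h12 h23 (fun i => by have := h i; tauto)
    · exact cells_eq_hook3 μ l₃ l₂ l₁ h12 h23 (fun i => by have := h i; tauto)
    · exact cells_eq_hook3 μ l₂ l₃ l₁ h13 h23 (fun i => by have := h i; tauto)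
    · exact cells_eq_hook3 μ l₂ l₁ l₃ h13 h12 (fun i => by have := h i; tauto)
    · exact cells_eq_hook3 μ l₃ l₁ l₂ h12 h13 (fun i => by have := h i; tauto)
    · exact cells_eq_hook3 μ l₁ l₃ l₂ h23 h13 (fun i => by have := h i; tauto)
    · exact cells_eq_hook3 μ l₁ l₂ l₃ h23 h12 (fun i => by have := h i; tauto)
    · exact cells_eq_hook3 μ l₁ l₂ l₃ h23 h12 (fun i => by have := h i; tauto)
  obtain ⟨p1, p2, p3, c1, c2, c3, hμ⟩ := key
  obtain ⟨c, hc⟩ := good_hook3 p1 p2 p3 c1 c2 c3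
  rw [hμ]
  exact ⟨c, good_cds _ c hc⟩

end Pool.Agent.Results.MP_d56194_co.ThreeRowLengths
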